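import Pool.Agent.Lib.MP_ab8df0_nt.T.Cubic
import Pool.Agent.Lib.MP_ab8df0_nt.P.K2

set_option maxRecDepth 100000

/-! Constants and hypotheses. -/

namespace Pool.Agent.Lib.MP_ab8df0_nt.T.B10

open Pool.Agent.Lib.MP_ab8df0_nt.B Pool.Agent.Lib.MP_ab8df0_nt.P

def vs : Cs := [([0, 1], 1), ([], 1), ([], 1), ([], 1), ([], 1), ([], 1), ([], 1), ([], 1), ([], 1), ([], 1), ([], 1), ([], 1), 
  ([], 1),
  ([-4, 4, -1], 1),
  ([16, -16, 4], 1),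
  ([0, 1], 1),
  ([1, 1], 1),
  ([-1], 1),
  ([1, 0, -1], 1),
  ([2, -1], 1),
  ([4, -2], 1),
  ([6, -6], 1),
  ([2], 1),
  ([1], 1),
  ([108, 86, 68], 1),
  ([-1946, -1546, -1226], 1),
  ([146, 116, 92], 1),
  ([-253, -200, -160], 3),
  ([1, 2, -2], 1),
  ([-14, 2, 7], 1),
  ([2, 1, 2], 1),
  ([8, 4, 2], 1),
  ([-2, 1], 1),
  ([-2, -1, 2], 1),
  ([-8, 4, 2], 1),
  ([4, 2, -2], 1),
  ([8, 4, -4], 1)]

def c0 : EC := ⟨12, 13, 12, 14, [15, 16, 17, 18], [15, 16, 17, 18]⟩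

def M (t0 : ℤ) (k0 : ℕ) : List Hyp := [
  .disc 1 t0 k0,
  .disc 1 t0 k0,
  .eq 2 (.add (.mul (.num 2) (.inv (.add (.num 1) (.mul (.var 1) (.var 0))))) (.neg (.num 1))),
  .sqr 3 (.add (.num 1) (.mul (.num 3) (.sq (.var 2)))),
  .cls (.add (.num 1) (.mul (.num 3) (.sq (.var 2)))) [],
  .cls (.mul (.num 2) (.var 3)) [],
  .eq 4 (.mul (.var 19) (.var 3)),
  .on c0 false 4 5,
  .lin 6 (.mul (.add (.num 1) (.mul (.var 1) (.var 0))) (.add (.num 1) (.mul (.num 0) (.var 0)))) (.mul (.num (-2)) (.var 0)),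
  .lin 7 (.add (.var 3) (.var 22)) (.mul (.num 3) (.mul (.add (.var 2) (.var 23)) (.var 6))),
  .eq 8 (.mul (.var 19) (.var 7)),
  .dq 4 20 1 0 1 8,
  .lin 9 (.mul (.add (.num 1) (.mul (.var 1) (.var 0))) (.add (.num 5) (.mul (.num (-4)) (.var 0)))) (.mul (.num (-2)) (.var 0)),
  .lin 10 (.add (.var 3) (.var 26)) (.mul (.num 3) (.mul (.add (.var 2) (.var 27)) (.var 9))),
  .eq 11 (.mul (.var 19) (.var 10)),
  .dq 4 24 1 (-4) 5 11]

def k0 : Cut := ⟨[], [], [], [[false, true, false, false], [false, false, true, false], [true, false, false, false], [true, false, true, true]], [[false, false, true, false], [true, false, false, false], [false, true, false, false], [false, true, true, true]]⟩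

def A : List AH := [
  .ec c0 3 ([-4, -3, -2], 6) ([4, 3, 2], 24) k0 k0,
  .on c0 false 20 21,
  .on c0 false 24 25,
  .on c0 false 18 28,
  .on c0 false 13 29,
  .on c0 false 20 21,
  .on c0 false 30 31,
  .on c0 false 32 12,
  .on c0 false 33 34,
  .on c0 false 19 12,
  .on c0 true 35 36]

theorem auto : (baseOk 11 vs && A.all (AH.ok FDK2 11 vs)) = true := by decide +kernel

end Pool.Agent.Lib.MP_ab8df0_nt.T.B10

/-! Proof trees. -/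

namespace Pool.Agent.Lib.MP_ab8df0_nt.T.B10

open Pool.Agent.Lib.MP_ab8df0_nt.B Pool.Agent.Lib.MP_ab8df0_nt.P

def r0_0 : Tree := .set 12 [[]] (.set 13 [[]] (.set 14 [[]] (.set 15 [[]] (.set 16 [[]] (.set 17 [[]] (.set 18 [[]] (.set 19 [[]] (.set 20 [[]] (.set 21 [[]] (.set 22 [[]] (.set 23 [[]] (.set 24 [[]] (.set 25 [[]] (.set 26 [[]] (.set 27 [[ce 0 264 128 1 0xaaaaaaaaaaaaaaaaaaaaaaaaaaaaaaab]] (.set 28 [[]] (.set 29 [[]] (.set 30 [[]] (.set 31 [[]] (.set 32 [[]] (.set 33 [[]] (.set 34 [[]] (.set 35 [[]] (.set 36 [[]] (.piv [15, 16, 17, 18] [[ce 0 264 1 0 0x0], [ce 0 264 1 1 0x1], [ce 0 264 1 1 0x1], [ce 0 264 5 3 0xa29]] (.piv [] [] (.disc 38 (.set 39 [[ce 0 264 1 1 0x1]] (.root 40 0 [] (ce 1 264 1 1 0x1) (.set 43 [[]] (.yrt 44 [] (ce 1 264 6 3 0x280ed) (.set 45 [[ce 0 264 1 1 0x1]] (.set 46 [[ce (-2) 264 1 1 0x1]] (.set 47 [[]] (.dent 66 54 48 true [[ce (-2) 264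 4 3 0xf33]] [[ce 0 264 1 1 0x1]] [[ce 0 264 1 1 0x1]] (.deep 53 64 64 68 69 37 4 [30] [] [] (.pnil 71) (.pnil 71) (.set 70 [[]] (.set 71 [[]] (.set 72 [[]] (.set 73 [[ce (-6) 264 5 3 0x54c0]] (.set 74 [[ce (-3) 264 4 3 0x3d2]] (.half 53 75 64 [ce 2 264 4 3 0x942] (ce (-3) 264 2 3 0x1e) (.fin 53 75 76 [[ce 2 264 4 3 0x942]] (.set 78 [[ce 3 264 3 2 0x3c]] (.set 79 [[]] (.half 53 77 64 [ce 1 264 4 3 0x942] (ce (-2) 264 2 3 0x1e) (.fin 53 77 81 [[ce 1 264 4 3 0x942]] (.set 83 [[ce 3 264 2 3 0x26]] (.set 84 [[]] (.half 53 82 64 [ce 1 264 4 3 0x942] (ce (-2) 264 2 3 0x1e) (.fin 53 82 86 [[ce 1 264 4 3 0x942]] (.set 88 [[ce 1 264 2 3 0x26]] (.set 89 [[]] (.half 53 87 64 [ce 0 264 4 3 0x942] (ce (-1) 264 2 3 0x1e) (.fin 53 87 91 [[ce 0 264 4 3 0x942]] (.set 93 [[ce 1 264 2 3 0x26]] (.set 94 [[]] (.half 53 92 64 [ce 0 264 4 3 0x942] (ce (-1) 264 2 3 0x1e) (.fin 53 92 96 [[ce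 0 264 4 3 0x942]] (.set 98 [[ce (-1) 264 2 3 0x26]] (.set 98 [[ce (-1) 264 4 3 0x4da]] (.set 99 [[]] (.edead 53 97 64 [false, false, false, false] [ce (-1) 264 5 3 0x2eca])))))))))))))))))))))))))))))))))) (.dead 42 65 [[]] [] [ce (-1) 264 1 1 0x1]))))))))))))))))))))))))))))))

theorem r0 : run FDK2.ds FDK2.es [[]] vs.length (fullH 11 vs (M 0 4) A) r0_0 = true := by
  decide +kernel

def r1_0 : Tree := .set 12 [[]] (.set 13 [[]] (.set 14 [[]] (.set 15 [[]] (.set 16 [[]] (.set 17 [[]] (.set 18 [[]] (.set 19 [[]] (.set 20 [[]] (.set 21 [[]] (.set 22 [[]] (.set 23 [[]] (.set 24 [[]] (.set 25 [[]] (.set 26 [[]] (.set 27 [[ce 0 264 128 1 0xaaaaaaaaaaaaaaaaaaaaaaaaaaaaaaab]] (.set 28 [[]] (.set 29 [[]] (.set 30 [[]] (.set 31 [[]] (.set 32 [[]] (.set 33 [[]] (.set 34 [[]] (.set 35 [[]] (.set 36 [[]] (.piv [15, 16, 17, 18] [[ce 0 264 1 0 0x0], [ce 0 264 1 1 0x1], [ce 0 264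 1 1 0x1], [ce 0 264 5 3 0xa29]] (.piv [] [] (.disc 38 (.split 38 (.set 39 [[ce 0 264 8 3 0x40f801]] (.root 40 0 [] (ce 1 264 7 3 0x1e3a41) (.set 43 [[]] (.yrt 44 [] (ce 1 264 7 3 0x1124a1) (.add 66 55 true [[ce (-3) 264 6 3 0x375fc]] (.half 53 68 64 [ce 1 264 4 3 0x7f7] (ce (-1) 264 6 3 0x22853) (.fin 53 68 69 [[ce 1 264 5 3 0xdbd]] (.set 71 [[ce 0 264 4 3 0xf45]] (.set 72 [[]] (.half 53 70 64 [ce 0 264 4 3 0xd3b] (ce 0 264 6 3 0x28b7f) (.fin 53 70 74 [[ce 0 264 5 3 0x66b9]] (.set 76 [[ce 0 264 4 3 0x6a9]] (.set 76 [[ce 0 264 5 3 0x859]] (.set 76 [[ce 0 264 6 3 0x22a9]] (.set 77 [[]] (.half 53 75 64 [ce 0 264 4 3 0xbcd] (ce 0 264 6 3 0x371b1) (.fin 53 75 79 [[ce 0 264 5 3 0x778d]] (.edead 53 80 64 [false, true, true, false] [ce (-1) 264 5 3 0x69a6])))))))))))))))) (.dead 42 65 [[]] [] [ce (-1) 264 1 1 0x1]))) (.set 39 [[ce 0 264 8 3 0x40e801]] (.root 40 0 [] (ce 1 264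 8 3 0x385cc1) (.set 43 [[]] (.yrt 44 [] (ce 1 264 6 3 0x28741) (.add 66 55 true [[ce (-3) 264 6 3 0x7afc]] (.half 53 68 64 [ce 1 264 5 3 0x247b] (ce (-1) 264 6 3 0x2496f) (.fin 53 68 69 [[ce 1 264 5 3 0x76b9]] (.set 71 [[ce 0 264 4 3 0xbc5]] (.set 72 [[]] (.half 53 70 64 [ce 0 264 5 3 0x3eff] (ce 0 264 6 3 0x2267b) (.fin 53 70 74 [[ce 0 264 5 3 0x2ea5]] (.set 76 [[ce 0 264 4 3 0x2a9]] (.set 76 [[ce 0 264 5 3 0x3859]] (.set 76 [[ce 0 264 6 3 0xeaa9]] (.set 77 [[]] (.half 53 75 64 [ce 0 264 5 3 0x460d] (ce 0 264 6 3 0x195a9) (.fin 53 75 79 [[ce 0 264 5 3 0x2f9d]] (.edead 53 80 64 [false, true, true, false] [ce (-1) 264 5 3 0x69a6])))))))))))))))) (.dead 42 65 [[]] [] [ce (-1) 264 1 1 0x1])))))))))))))))))))))))))))))))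

theorem r1 : run FDK2.ds FDK2.es [[]] vs.length (fullH 11 vs (M 8 4) A) r1_0 = true := by
  decide +kernel

def r2_0 : Tree := .set 12 [[]] (.set 13 [[]] (.set 14 [[]] (.set 15 [[]] (.set 16 [[]] (.set 17 [[]] (.set 18 [[]] (.set 19 [[]] (.set 20 [[]] (.set 21 [[]] (.set 22 [[]] (.set 23 [[]] (.set 24 [[]] (.set 25 [[]] (.set 26 [[]] (.set 27 [[ce 0 264 128 1 0xaaaaaaaaaaaaaaaaaaaaaaaaaaaaaaab]] (.set 28 [[]] (.set 29 [[]] (.set 30 [[]] (.set 31 [[]] (.set 32 [[]] (.set 33 [[]] (.set 34 [[]] (.set 35 [[]] (.set 36 [[]] (.piv [15, 16, 17, 18] [[ce 0 264 1 0 0x0], [ce 0 264 1 1 0x1], [ce 0 264 1 1 0x1], [ce 0 264 5 3 0xa29]] (.piv [] [] (.disc 38 (.split 38 (.set 39 [[ce 0 264 8 3 0x10fc81]] (.root 40 0 [] (ce 1 264 8 3 0xce26f9) (.set 43 [[]] (.yrt 44 [] (ce 1 264 6 3 0x27d43) (.add 66 54 false [[ce (-3) 264 6 3 0x2567c]] (.half 53 68 64 [ce 1 264 5 3 0x2eab] (ce (-1)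 264 6 3 0x2a169) (.fin 53 68 69 [[ce 1 264 4 3 0x9db]] (.set 71 [[ce 0 264 4 3 0x70d]] (.set 72 [[]] (.half 53 70 64 [ce 0 264 5 3 0x2eab] (ce 0 264 6 3 0x2446d) (.fin 53 70 74 [[ce 0 264 5 3 0x4fbf]] (.set 76 [[ce 0 264 4 3 0x26d]] (.set 76 [[ce 0 264 5 3 0x3ad9]] (.set 76 [[ce 0 264 6 3 0x32b89]] (.set 77 [[]] (.half 53 75 64 [ce 0 264 5 3 0x4f4d] (ce 0 264 5 3 0x7615) (.fin 53 75 79 [[ce 0 264 5 3 0x7c59]] (.edead 53 80 64 [false, true, true, false] [ce (-1) 264 5 3 0x5576])))))))))))))))) (.dead 42 65 [[]] [] [ce (-1) 264 1 1 0x1]))) (.set 39 [[ce 0 264 8 3 0x90ec81]] (.root 40 0 [] (ce 1 264 8 3 0xfece59) (.set 43 [[]] (.yrt 44 [] (ce 1 264 7 3 0x4e08b) (.add 66 54 false [[ce (-3) 264 6 3 0xdb6c]] (.half 53 68 64 [ce 1 264 5 3 0x2eab] (ce (-1) 264 6 3 0x2074d) (.fin 53 68 69 [[ce 1 264 5 3 0x5f37]] (.set 71 [[ce 0 264 4 3 0x381]] (.set 72 [[]] (.half 53 70 64 [ce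 0 264 5 3 0x2eab] (ce 0 264 6 3 0x2ae49) (.fin 53 70 74 [[ce 0 264 5 3 0x6533]] (.set 76 [[ce 0 264 4 3 0x6e9]] (.set 76 [[ce 0 264 5 3 0x19d9]] (.set 76 [[ce 0 264 6 3 0x163b9]] (.set 77 [[]] (.half 53 75 64 [ce 0 264 5 3 0x4f4d] (ce 0 264 6 3 0x23b35) (.fin 53 75 79 [[ce 0 264 5 3 0x46d1]] (.edead 53 80 64 [false, true, true, false] [ce (-1) 264 5 3 0x5576])))))))))))))))) (.dead 42 65 [[]] [] [ce (-1) 264 1 1 0x1])))))))))))))))))))))))))))))))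

theorem r2 : run FDK2.ds FDK2.es [[]] vs.length (fullH 11 vs (M 4 4) A) r2_0 = true := by
  decide +kernel

def r3_0 : Tree := .set 12 [[]] (.set 13 [[]] (.set 14 [[]] (.set 15 [[]] (.set 16 [[]] (.set 17 [[]] (.set 18 [[]] (.set 19 [[]] (.set 20 [[]] (.set 21 [[]] (.set 22 [[]] (.set 23 [[]] (.set 24 [[]] (.set 25 [[]] (.set 26 [[]] (.set 27 [[ce 0 264 128 1 0xaaaaaaaaaaaaaaaaaaaaaaaaaaaaaaab]] (.set 28 [[]] (.set 29 [[]] (.set 30 [[]] (.set 31 [[]] (.set 32 [[]] (.set 33 [[]] (.set 34 [[]] (.set 35 [[]] (.set 36 [[]] (.piv [15, 16, 17, 18] [[ce 0 264 1 0 0x0], [ce 0 264 1 1 0x1], [ce 0 264 1 1 0x1], [ce 0 264 5 3 0xa29]] (.piv [] [] (.disc 38 (.set 39 [[ce 0 264 7 3 0x43a01]] (.root 40 0 [] (ce 1 264 7 3 0x1d9d29) (.set 43 [[]] (.yrt 44 [] (ce 1 264 6 3 0x1f8db) (.set 49 [[ce 0 264 7 3 0x1c044d]] (.set 50 [[ce (-2) 264 5 3 0xbc9]] (.set 51 [[]] (.dent 66 55 52 false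 [[ce (-2) 264 4 3 0x2b1]] [[ce 0 264 1 1 0x1]] [[ce 0 264 1 1 0x1]] (.deep 53 64 64 68 69 37 4 [30] [] [] (.pnil 71) (.pnil 71) (.set 70 [[]] (.set 71 [[]] (.set 72 [[]] (.set 73 [[ce (-6) 264 5 3 0x2744]] (.set 74 [[ce (-3) 264 4 3 0x3fc]] (.half 53 75 64 [ce 2 264 5 3 0x2eca] (ce (-3) 264 1 3 0x6) (.fin 53 75 76 [[ce 2 264 4 3 0xb6a]] (.set 78 [[ce 3 264 2 2 0xc]] (.set 79 [[]] (.half 53 77 64 [ce 1 264 5 3 0x2eca] (ce (-2) 264 1 3 0x6) (.fin 53 77 81 [[ce 1 264 4 3 0xb6a]] (.set 83 [[ce 3 264 3 2 0x2e]] (.set 84 [[]] (.half 53 82 64 [ce 1 264 5 3 0x2eca] (ce (-2) 264 1 3 0x6) (.fin 53 82 86 [[ce 1 264 4 3 0xb6a]] (.set 88 [[ce 1 264 3 2 0x2e]] (.set 89 [[]] (.half 53 87 64 [ce 0 264 5 3 0x2eca] (ce (-1) 264 1 3 0x6) (.fin 53 87 91 [[ce 0 264 4 3 0xb6a]] (.set 93 [[ce 1 264 3 2 0x2e]] (.set 94 [[]] (.half 53 92 64 [ce 0 264 5 3 0x2eca] (ce (-1) 264 1 3 0x6) (.fin 53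 92 96 [[ce 0 264 4 3 0xb6a]] (.set 98 [[ce (-1) 264 3 2 0x2e]] (.set 98 [[ce (-1) 264 4 3 0x21e]] (.set 99 [[]] (.edead 53 97 64 [false, false, false, false] [ce (-1) 264 4 3 0x942])))))))))))))))))))))))))))))))))) (.dead 42 65 [[]] [] [ce (-1) 264 1 1 0x1]))))))))))))))))))))))))))))))

theorem r3 : run FDK2.ds FDK2.es [[]] vs.length (fullH 11 vs (M 12 4) A) r3_0 = true := by
  decide +kernel

def r4_0 : Tree := .set 12 [[]] (.set 13 [[]] (.set 14 [[]] (.set 15 [[]] (.set 16 [[]] (.set 17 [[]] (.set 18 [[]] (.set 19 [[]] (.set 20 [[]] (.set 21 [[]] (.set 22 [[]] (.set 23 [[]] (.set 24 [[]] (.set 25 [[]] (.set 26 [[]] (.set 27 [[ce 0 264 128 1 0xaaaaaaaaaaaaaaaaaaaaaaaaaaaaaaab]] (.set 28 [[]] (.set 29 [[]] (.set 30 [[]] (.set 31 [[]] (.set 32 [[]] (.set 33 [[]] (.set 34 [[]] (.set 35 [[]] (.set 36 [[]] (.piv [15, 16, 17, 18] [[ce 0 264 1 0 0x0], [ce 0 264 1 1 0x1],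 [ce 0 264 1 1 0x1], [ce 0 264 5 3 0xa29]] (.piv [] [] (.disc 38 (.set 39 [[ce 0 264 5 3 0x13d1]] (.dead 41 65 [[]] [] [ce (-1) 264 5 3 0x4f4d])))))))))))))))))))))))))))))

theorem r4 : run FDK2.ds FDK2.es [[]] vs.length (fullH 11 vs (M 2 2) A) r4_0 = true := by
  decide +kernel

def r5_0 : Tree := .set 12 [[]] (.set 13 [[]] (.set 14 [[]] (.set 15 [[]] (.set 16 [[]] (.set 17 [[]] (.set 18 [[]] (.set 19 [[]] (.set 20 [[]] (.set 21 [[]] (.set 22 [[]] (.set 23 [[]] (.set 24 [[]] (.set 25 [[]] (.set 26 [[]] (.set 27 [[ce 0 264 128 1 0xaaaaaaaaaaaaaaaaaaaaaaaaaaaaaaab]] (.set 28 [[]] (.set 29 [[]] (.set 30 [[]] (.set 31 [[]] (.set 32 [[]] (.set 33 [[]] (.set 34 [[]] (.set 35 [[]] (.set 36 [[]] (.piv [15, 16, 17, 18] [[ce 0 264 1 0 0x0], [ce 0 264 1 1 0x1], [ce 0 264 1 1 0x1], [ce 0 264 5 3 0xa29]] (.piv [] [] (.disc 38 (.set 39 [[ce 0 264 4 3 0xb5b]] (.dead 41 65 [[]] []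 [ce (-1) 264 1 1 0x1])))))))))))))))))))))))))))))

theorem r5 : run FDK2.ds FDK2.es [[]] vs.length (fullH 11 vs (M 1 1) A) r5_0 = true := by
  decide +kernel

end Pool.Agent.Lib.MP_ab8df0_nt.T.B10

/-! The result of the computation. -/

namespace Pool.Agent.Lib.MP_ab8df0_nt.T.B10

open Pool.Agent.Lib.MP_ab8df0_nt.B Pool.Agent.Lib.MP_ab8df0_nt.P

theorem relD {K : Type} [Field K] [NumberField K] {a : K} {pl : List (Place K)} {ph : List (K →+* ℝ)}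
    {w : List (IsDedekindDomain.HeightOneSpectrum (NumberField.RingOfIntegers K))}
    (hP : Pack K FDK2 a pl ph w) : cval a vs 19 = (2 - a) := by
  have h : (cval a vs 19 + (-((((2 : ℤ) : K) + (-(cval a vs 0)))))) = 0 :=
    hP.rel vs (.add (.var 19) (.neg (.add (.num 2) (.neg (.var 0))))) (by decide +kernel)
  have h0 : cval a vs 0 = a := by simp [cval, vs, ev]
  try rw [h0] at h
  try push_cast at h
  linear_combination h

theorem relb {K : Type} [Field K] [NumberField K] {a : K} {pl : List (Place K)} {ph : List (K →+* ℝ)}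
    {w : List (IsDedekindDomain.HeightOneSpectrum (NumberField.RingOfIntegers K))}
    (hP : Pack K FDK2 a pl ph w) : cval a vs 13 = (-(((cval a vs 19) ^ 2))) := by
  have h : (cval a vs 13 + (-((-(((cval a vs 19) ^ 2)))))) = 0 :=
    hP.rel vs (.add (.var 13) (.neg (.neg (.sq (.var 19))))) (by decide +kernel)
  have h0 : cval a vs 0 = a := by simp [cval, vs, ev]
  try rw [h0] at h
  try push_cast at h
  linear_combination h

theorem core {K : Type} [Field K] [NumberField K] {a : K} {pl : List (Place K)} {ph : List (K →+* ℝ)}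
    {w : List (IsDedekindDomain.HeightOneSpectrum (NumberField.RingOfIntegers K))}
    (hP : Pack K FDK2 a pl ph w) {G : Prop} (t g X x y dG0 dX0 dx0 dG1 dX1 dx1 : K)
    (hdisc : Q2 0 (t - ((0 : ℤ) : K)))
    (hG : g = ((2 * ((1 + (t * a)))⁻¹) - 1))
    (hX : X ^ 2 = (1 + (3 * ((g) ^ 2))))
    (hclsX : IsSquare (1 + (3 * ((g) ^ 2))))
    (hcls : IsSquare (2 * X))
    (hx : x = (cval a vs 19 * X))
    (hon : On (cval a vs 12) (cval a vs 13) x y)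
    (hdG0 : ((1 + (t * a)) * (1 + (0 * a))) * dG0 = ((-2) * a))
    (hdX0 : (X + cval a vs 22) * dX0 = (3 * ((g + cval a vs 23) * dG0)))
    (hdx0 : dx0 = (cval a vs 19 * dX0))
    (hdq0n : (1 * t - 0) ≠ 0) (hdq0 : x - cval a vs 20 = (1 * t - 0) * dx0)
    (hdG1 : ((1 + (t * a)) * (5 + ((-4) * a))) * dG1 = ((-2) * a))
    (hdX1 : (X + cval a vs 26) * dX1 = (3 * ((g + cval a vs 27) * dG1)))
    (hdx1 : dx1 = (cval a vs 19 * dX1))
    (hdq1n : (5 * t - (-4)) ≠ 0) (hdq1 : x - cval a vs 24 = (5 * t - (-4)) * dx1) :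
    G := by
  refine hP.cover (fr := [t, g, X, x, y, dG0, dX0, dx0, dG1, dX1, dx1]) (M := M) (cs := [[]]) rfl auto
    (l := [(0, 4), (8, 4), (4, 4), (12, 4), (2, 2), (1, 1)]) (by decide) ?_ hdisc fun t0 k0 hq => ?_
  · exact List.forall_mem_cons.2 ⟨⟨_, r0⟩, List.forall_mem_cons.2 ⟨⟨_, r1⟩, List.forall_mem_cons.2 ⟨⟨_, r2⟩, List.forall_mem_cons.2 ⟨⟨_, r3⟩, List.forall_mem_cons.2 ⟨⟨_, r4⟩, List.forall_mem_cons.2 ⟨⟨_, r5⟩, fun _ h => absurd h List.not_mem_nil⟩⟩⟩⟩⟩⟩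
  · refine List.forall_mem_cons.2 ⟨?_, List.forall_mem_cons.2 ⟨?_, List.forall_mem_cons.2 ⟨?_, List.forall_mem_cons.2 ⟨?_, List.forall_mem_cons.2 ⟨?_, List.forall_mem_cons.2 ⟨?_, List.forall_mem_cons.2 ⟨?_, List.forall_mem_cons.2 ⟨?_, List.forall_mem_cons.2 ⟨?_, List.forall_mem_cons.2 ⟨?_, List.forall_mem_cons.2 ⟨?_, List.forall_mem_cons.2 ⟨?_, List.forall_mem_cons.2 ⟨?_, List.forall_mem_cons.2 ⟨?_, List.forall_mem_cons.2 ⟨?_, List.forall_mem_cons.2 ⟨?_, fun _ h => absurd h List.not_mem_nil⟩⟩⟩⟩⟩⟩⟩⟩⟩⟩⟩⟩⟩⟩⟩⟩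
    · exact hq
    · exact hq
    · show g = ((((2 : ℤ) : K) * ((((1 : ℤ) : K) + (t * a)))⁻¹) + (-(((1 : ℤ) : K))))
      try push_cast
      linear_combination hG
    · show X ^ 2 = (((1 : ℤ) : K) + (((3 : ℤ) : K) * ((g) ^ 2)))
      try push_cast
      linear_combination hX
    · exact span_of_isSquare (x := (((1 : ℤ) : K) + (((3 : ℤ) : K) * ((g) ^ 2)))) ((by push_cast; ring : (((1 : ℤ) : K) + (((3 : ℤ) : K) * ((g) ^ 2))) = (1 + (3 * ((g) ^ 2)))) ▸ hclsX)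
    · exact span_of_isSquare (x := (((2 : ℤ) : K) * X)) ((by push_cast; ring : (((2 : ℤ) : K) * X) = (2 * X)) ▸ hcls)
    · show x = (cval a vs 19 * X)
      try push_cast
      linear_combination hx
    · exact hon
    · show ((((1 : ℤ) : K) + (t * a)) * (((1 : ℤ) : K) + (((0 : ℤ) : K) * a))) * dG0 = (((-2 : ℤ) : K) * a)
      try push_cast
      linear_combination hdG0
    · show (X + cval a vs 22) * dX0 = (((3 : ℤ) : K) * ((g + cval a vs 23) * dG0))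
      try push_cast
      linear_combination hdX0
    · show dx0 = (cval a vs 19 * dX0)
      try push_cast
      linear_combination hdx0
    · show (((1 : ℤ) : K) * t - ((0 : ℤ) : K)) ≠ 0 ∧ x - cval a vs 20 = (((1 : ℤ) : K) * t - ((0 : ℤ) : K)) * dx0
      try push_cast
      exact ⟨by simpa using hdq0n, by linear_combination hdq0⟩
    · show ((((1 : ℤ) : K) + (t * a)) * (((5 : ℤ) : K) + (((-4 : ℤ) : K) * a))) * dG1 = (((-2 : ℤ) : K) * a)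
      try push_cast
      linear_combination hdG1
    · show (X + cval a vs 26) * dX1 = (((3 : ℤ) : K) * ((g + cval a vs 27) * dG1))
      try push_cast
      linear_combination hdX1
    · show dx1 = (cval a vs 19 * dX1)
      try push_cast
      linear_combination hdx1
    · show (((5 : ℤ) : K) * t - ((-4 : ℤ) : K)) ≠ 0 ∧ x - cval a vs 24 = (((5 : ℤ) : K) * t - ((-4 : ℤ) : K)) * dx1
      try push_cast
      exact ⟨by simpa using hdq1n, by linear_combination hdq1⟩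

end Pool.Agent.Lib.MP_ab8df0_nt.T.B10

/-! The trivial class for the first equation. -/

namespace Pool.Agent.Lib.MP_ab8df0_nt.T.B10

open Pool.Agent.Lib.MP_ab8df0_nt.B Pool.Agent.Lib.MP_ab8df0_nt.P Pool.Agent.Lib.MP_ab8df0_nt.C

theorem main {K : Type} [Field K] [NumberField K] {a : K} {pl : List (Place K)} {ph : List (K →+* ℝ)}
    {w : List (IsDedekindDomain.HeightOneSpectrum (NumberField.RingOfIntegers K))}
    (hP : Pack K FDK2 a pl ph w) : BB10 := by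
  intro x y z hx hyz h hf
  have h3 : a ^ 3 = 2 := by
    have := hP.root
    simp only [FDK2, ev, List.length_cons, List.length_nil] at this
    push_cast at this
    linear_combination this
  have hz := odd_z hyz h
  have hz0 : (z : K) ≠ 0 := ne_of_odd hz
  obtain ⟨al, ha0, hw, he, -⟩ := eta_exists (F := K) (t := a) (rho := 1) (by exact_mod_cast h3)
    (by simp [n3]) one_ne_zero (by simp [e3]) hx h hf
  have hw0 : (z : K) + y * a ≠ 0 := by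
    intro h0
    simp only [Int.cast_one, one_mul, h0, neg_zero, e3] at hw
    exact pow_ne_zero 4 ha0 (by simpa using hw.symm)
  simp only [Int.cast_one, one_mul] at he
  obtain ⟨t, ht⟩ : ∃ t : K, t = y / z := ⟨_, rfl⟩
  obtain ⟨r, hr⟩ : ∃ r : K, r = x / al ^ 3 := ⟨_, rfl⟩
  have hu1 : 1 + t * a = (z + y * a) / z := by rw [ht]; field_simp
  have hu : 1 + t * a ≠ 0 := hu1 ▸ div_ne_zero hw0 hz0
  obtain ⟨g, hg⟩ : ∃ g : K, g = 2 * (1 + t * a)⁻¹ - 1 := ⟨_, rfl⟩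
  have hX : (2 * r ^ 2) ^ 2 = 1 + 3 * g ^ 2 := by
    have : g = (z - y * a) / (z + y * a) := by rw [hg, hu1]; field_simp; ring
    rw [this, ← he, hr]; ring
  by_contra hy
  have hd0 : 1 * t - 0 ≠ 0 := by
    rw [ht, one_mul, sub_zero]
    exact div_ne_zero (Int.cast_ne_zero.2 hy) hz0
  have hd1 : 5 * t - (-4) ≠ 0 := by
    intro h0
    have h1 : ((5 * y + 4 * z : ℤ) : K) = 0 := by
      rw [ht] at h0
      field_simp at h0
      push_cast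
      linear_combination h0
    rcases R13.ratio (a := 5) (b := 4) hyz ⟨1, -1, by norm_num⟩ (by exact_mod_cast h1) with
      ⟨rfl, rfl⟩ | ⟨rfl, rfl⟩
    · exact R13.neg4 (x := x) (n := -3) (by norm_num) (by linear_combination h)
    · exact R13.no4 (x := x) (n := 3) (m := 1) (by norm_num) (by norm_num) (by norm_num)
        (by linear_combination h)
  have c12 : cval a vs 12 = 0 := by simp [cval, vs, ev]
  have c19 : cval a vs 19 = 2 - a := relD hP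
  have c20 : cval a vs 20 = 4 - 2 * a := by simp [cval, vs, ev]; ring
  have c22 : cval a vs 22 = 2 := by simp [cval, vs, ev]
  have c23 : cval a vs 23 = 1 := by simp [cval, vs, ev]
  have c24 : cval a vs 24 = 108 + 86 * a + 68 * a ^ 2 := by simp [cval, vs, ev]; ring
  have c26 : cval a vs 26 = 146 + 116 * a + 92 * a ^ 2 := by simp [cval, vs, ev]; ring
  have c27 : cval a vs 27 = (-253 - 200 * a - 160 * a ^ 2) / 3 := by simp [cval, vs, ev]; ring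
  obtain ⟨dG0, dX0, dx0, p1, p2, p3, p4⟩ := dqs (D := cval a vs 19) (G0 := cval a vs 23)
    (X0 := cval a vs 22) (x0 := cval a vs 20) hu hg hX (by rw [c23]; ring)
    (by rw [c22, c23]; ring) (by rw [c19, c20, c22]; ring) hd0
  obtain ⟨dG1, dX1, dx1, q1, q2, q3, q4⟩ := dqs (D := cval a vs 19) (G0 := cval a vs 27)
    (X0 := cval a vs 26) (x0 := cval a vs 24) hu hg hX
    (by rw [c27]; linear_combination (640 / 3) * h3)
    (by rw [c26, c27]; linear_combination (32 / 3 - 208 / 3 * a) * h3)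
    (by rw [c19, c24, c26]; linear_combination 92 * h3) hd1
  refine core hP t g (2 * r ^ 2) _ ((2 - a) * g * (a ^ 2 + 2 * a - 2) * r) dG0 dX0 dx0 dG1 dX1 dx1
    (ht ▸ Q2.of_div hz (by simp)) hg hX ⟨2 * r ^ 2, by rw [← hX]; ring⟩ ⟨2 * r, by ring⟩ rfl ?_
    p1 p2 p3 hd0 p4 q1 q2 q3 hd1 q4
  unfold On
  rw [relb hP, c12, c19]
  linear_combination ((2 - a) ^ 2 * g ^ 2 * r ^ 2 * (a + 4)) * h3 - ((2 - a) ^ 3 * 2 * r ^ 2) * hX

theorem bb : BB10 := by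
  obtain ⟨pl, ph, w, hP⟩ := K2.pack
  exact main hP

end Pool.Agent.Lib.MP_ab8df0_nt.T.B10
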